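import Mathlib
import Pool.Agent.Lib.MP_3940ed_co.GB.All

/-!
# The Beineke–Harary conjecture

For all integers `k ≥ 0` and `l ≥ 1`, every finite multigraph `G` and all distinct vertices `s`, `t`:
if `(k, l)` is a connectivity pair for `s` and `t` in `G`, then `G` has `k + l` pairwise
edge-disjoint `s`-`t` paths, `k + 1` of which are pairwise internally disjoint.
-/

set_option autoImplicit false

namespace Pool.Agent.Results.MP_3940ed_co.AllPairs

open BeinekeHarary

theorem result.{u, v} (k l : ℕ) (hl : 1 ≤ l) : Holds.{u, v} k l :=
  BHNet.GB.holds_all k l hl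

end Pool.Agent.Results.MP_3940ed_co.AllPairs
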